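import Mathlib
import Pool.Agent.R529.SM.V4

set_option autoImplicit false

/-!
# The exact fluctuations in `(x, x + (log x)^s]` in sieved random models of the primes

The question is whether `R_s(x) = (log x / (log x)^s) (π(x + (log x)^s) - π(x))` has lower and upper
limits `L_s`, `U_s` tending to `1` as `s → ∞`.  We consider EVERY sequential random model of the
primes: the integers are decided one after the other, only integers coprime to a fixed `Q` can be
chosen, and the conditional probability of choosing `n + 1` (coprime to `Q`) given the past is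
asymptotic to `(Q / φ(Q)) / log n`; no independence is assumed (for `Q = 1` Cramér's model and the
Hawkins random sieve are examples).  Almost surely, for every `s > 2`, the number of members in
`(x, x + h]` differs from the sum of the conditional probabilities by at most `(1 + o(1)) √(2h)`,
uniformly for all large real `x` and all `h` between `(log x)^s` and `x^{o(1)}`, and this is best
possible for each length `(log x)^s`.  If the conditional probabilities are moreover equal to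
`(Q / φ(Q)) / log n` up to an error smaller than any power of `1 / log n` (for instance in Cramér's
model), then `R_s(x) - 1` is of exact maximal order `√2 (log x)^(1 - s/2)` for every `s > 2`.
-/

open MeasureTheory Filter
open scoped Topology

namespace Pool.Agent.Results.MP_b09185_nt.ExactFluctuations

/-- the number of members `m` of `S` with `x < m ≤ x + h` -/
noncomputable def count (S : Set ℕ) (x h : ℝ) : ℕ :=
  Set.ncard {m : ℕ | m ∈ S ∧ x < m ∧ (m : ℝ) ≤ x + h}

/-- the integers `m ≥ 0` with `x < m ≤ x + h` -/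
noncomputable def between (x h : ℝ) : Finset ℕ :=
  (Finset.range (⌊x + h⌋₊ + 1)).filter (fun m => x < (m : ℝ))

/-- the sum over the integers `m` with `x < m ≤ x + h` of the conditional probabilities of `A m`
given `ℱ (m - 1)` -/
noncomputable def condSum {Ω : Type} {mΩ : MeasurableSpace Ω} (μ : Measure Ω) (ℱ : Filtration ℕ mΩ)
    (A : ℕ → Set Ω) (x h : ℝ) (ω : Ω) : ℝ :=
  ∑ m ∈ between x h, (μ[(A m).indicator (fun _ => (1 : ℝ)) | ℱ (m - 1)]) ω

/-- the ratio `R_s(x) = (log x / (log x)^s) * #(S ∩ (x, x + (log x)^s])` -/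
noncomputable def R (S : Set ℕ) (s x : ℝ) : ℝ :=
  Real.log x / Real.log x ^ s * count S x (Real.log x ^ s)

open Pool.Agent.R528.RM Pool.Agent.R291.RMW Pool.Agent.R529.SM

lemma between_eq {x h : ℝ} (hx : 0 < x) : between x h = Finset.Ioc ⌊x⌋₊ ⌊x + h⌋₊ := by
  ext m
  unfold between
  rw [Finset.mem_filter, Finset.mem_range, Finset.mem_Ioc, Nat.floor_lt hx.le]
  constructor
  · rintro ⟨h1, h2⟩
    exact ⟨h2, by omega⟩
  · rintro ⟨h1, h2⟩
    exact ⟨by omega, h1⟩

lemma count_eq {Ω : Type} {A : ℕ → Set Ω} {ω : Ω} {x h : ℝ} (hx : 0 < x) (hh : 0 ≤ h) :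
    (count {k | ω ∈ A k} x h : ℝ) = Ncl A (Finset.Ioc ⌊x⌋₊ ⌊x + h⌋₊) ω := by
  rw [Ncl_eq, ← between_eq hx]
  unfold count between
  congr 2
  ext m
  simp only [Set.mem_ofPred_eq, Finset.mem_filter, Finset.mem_range, Nat.lt_add_one_iff,
    Nat.le_floor_iff (show 0 ≤ x + h by linarith)]
  tauto

lemma condSum_eq {Ω : Type} {mΩ : MeasurableSpace Ω} {μ : Measure Ω} {ℱ : Filtration ℕ mΩ}
    {A : ℕ → Set Ω} {ω : Ω} {x h : ℝ} (hx : 0 < x) :
    condSum μ ℱ A x h ω = VS μ ℱ A (Finset.Ioc ⌊x⌋₊ ⌊x + h⌋₊) ω := by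
  unfold condSum VS
  rw [between_eq hx]
  refine Finset.sum_congr rfl fun m hm => ?_
  have := (Finset.mem_Ioc.1 hm).1
  unfold dens
  rw [show m - 1 + 1 = m by omega]

lemma diff_eq {Ω : Type} {mΩ : MeasurableSpace Ω} {μ : Measure Ω} [IsProbabilityMeasure μ] {ℱ : Filtration ℕ mΩ}
    {A : ℕ → Set Ω} {ω : Ω} {x h : ℝ} (hx : 0 < x) (hh : 0 ≤ h) :
    (count {k | ω ∈ A k} x h : ℝ) - condSum μ ℱ A x h ω = CS μ ℱ A (Finset.Ioc ⌊x⌋₊ ⌊x + h⌋₊) ω := by
  rw [count_eq hx hh, condSum_eq hx, CS_eq]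

end Pool.Agent.Results.MP_b09185_nt.ExactFluctuations

open Pool.Agent.Results.MP_b09185_nt.ExactFluctuations

set_option maxHeartbeats 2000000 in
/-- Let `A n` be the event that `n` belongs to a random set adapted to a filtration `ℱ`, let
`Q ≥ 1`, let no integer which is not coprime to `Q` be chosen, and let the conditional probability of
`A (n + 1)` given `ℱ n`, times `log n`, tend to `Q / φ(Q)` along the `n` with `n + 1` coprime to `Q`,
almost surely.
* Almost surely, for every real `s > 2` and `ε > 0` there is `δ > 0` such that for all large real `x`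
  and all `h` with `(log x)^s ≤ h ≤ x^δ` the number of members in `(x, x + h]` differs from the sum of
  the conditional probabilities by at most `(1 + ε) √(2h)`.
* For every real `s > 2`, almost surely, for every `ε > 0` there are arbitrarily large `x` such that
  the number of members in `(x, x + (log x)^s]` exceeds the sum of the conditional probabilities by at
  least `(1 - ε) √(2 (log x)^s)`.
* If moreover, almost surely, `(log n)^B |P(A (n+1) | ℱ n) - (Q / φ(Q)) / log n| → 0` along the `n`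
  with `n + 1` coprime to `Q`, for every `B`, then almost surely for every real `s > 2` and `ε > 0`,
  `|R_s(x) - 1| ≤ (1 + ε) √2 (log x)^(1 - s/2)` for all large real `x`; and for every `s > 2`, almost
  surely, for every `ε > 0`, `R_s(x) - 1 ≥ (1 - ε) √2 (log x)^(1 - s/2)` for arbitrarily large `x`. -/
theorem Pool.Agent.Results.MP_b09185_nt.ExactFluctuations.result
    {Ω : Type} [mΩ : MeasurableSpace Ω] (μ : Measure Ω) [IsProbabilityMeasure μ]
    (ℱ : Filtration ℕ mΩ) (A : ℕ → Set Ω) (hA : ∀ n, MeasurableSet[ℱ n] (A n))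
    (Q : ℕ) (hQ : 0 < Q) (hcop : ∀ n, ¬ Nat.Coprime n Q → A n = ∅)
    (hd : ∀ᵐ ω ∂μ, Tendsto (fun n : ℕ =>
      (μ[(A (n + 1)).indicator (fun _ => (1 : ℝ)) | ℱ n]) ω * Real.log n)
      (atTop ⊓ 𝓟 {n : ℕ | Nat.Coprime (n + 1) Q}) (𝓝 ((Q : ℝ) / Nat.totient Q))) :
    (∀ᵐ ω ∂μ, ∀ s : ℝ, 2 < s → ∀ ε : ℝ, 0 < ε → ∃ δ : ℝ, 0 < δ ∧ ∀ᶠ x : ℝ in atTop, ∀ h : ℝ,
        Real.log x ^ s ≤ h → h ≤ x ^ δ →
        |(count {k | ω ∈ A k} x h : ℝ) - condSum μ ℱ A x h ω| ≤ (1 + ε) * √(2 * h)) ∧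
    (∀ s : ℝ, 2 < s → ∀ᵐ ω ∂μ, ∀ ε : ℝ, 0 < ε → ∃ᶠ x : ℝ in atTop,
        condSum μ ℱ A x (Real.log x ^ s) ω + (1 - ε) * √(2 * Real.log x ^ s) ≤
          count {k | ω ∈ A k} x (Real.log x ^ s)) ∧
    ((∀ᵐ ω ∂μ, ∀ B : ℕ, Tendsto (fun n : ℕ => Real.log (n : ℝ) ^ B *
        |(μ[(A (n + 1)).indicator (fun _ => (1 : ℝ)) | ℱ n]) ω - ((Q : ℝ) / Nat.totient Q) / Real.log n|)
        (atTop ⊓ 𝓟 {n : ℕ | Nat.Coprime (n + 1) Q}) (𝓝 0)) →
      (∀ᵐ ω ∂μ, ∀ s : ℝ, 2 < s → ∀ ε : ℝ, 0 < ε → ∀ᶠ x : ℝ in atTop,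
        |R {k | ω ∈ A k} s x - 1| ≤ (1 + ε) * (√2 * Real.log x ^ (1 - s / 2))) ∧
      (∀ s : ℝ, 2 < s → ∀ᵐ ω ∂μ, ∀ ε : ℝ, 0 < ε → ∃ᶠ x : ℝ in atTop,
        (1 - ε) * (√2 * Real.log x ^ (1 - s / 2)) ≤ R {k | ω ∈ A k} s x - 1)) := by
  have hprof := Pool.Agent.R528.RM.dens_profile (μ := μ) (ℱ := ℱ) hA Q hQ hcop hd
  have hU := Pool.Agent.R529.SM.unif_real (μ := μ) (ℱ := ℱ) hA hQ hprof
  have hL := fun (s : ℝ) (hs : 2 < s) => Pool.Agent.R529.SM.low_real (μ := μ) (ℱ := ℱ) hA hQ hprof hs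
  refine ⟨?_, ?_, ?_⟩
  · filter_upwards [hU] with ω hω s hs ε hε
    obtain ⟨δ, hδ, hev⟩ := hω s hs ε hε
    refine ⟨δ, hδ, ?_⟩
    filter_upwards [hev, eventually_gt_atTop (1 : ℝ)] with x g1 g2 h h1 h2
    have hl := Real.log_pos g2
    have hh : 0 ≤ h := le_trans (by positivity) h1
    rw [diff_eq (by linarith) hh]
    exact g1 h h1 h2
  · intro s hs
    filter_upwards [hL s hs] with ω hω ε hε
    have h1 := (hω ε hε).and_eventually (eventually_gt_atTop 1)
    refine (tendsto_natCast_atTop_atTop (R := ℝ)).frequently (h1.mono ?_)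
    rintro n ⟨g1, g2⟩
    have hn : (1 : ℝ) < n := by exact_mod_cast g2
    have hl := Real.log_pos hn
    have e := diff_eq (μ := μ) (ℱ := ℱ) (A := A) (ω := ω) (x := (n : ℝ)) (h := Real.log (n : ℝ) ^ s) (by linarith) (by positivity)
    rw [Nat.floor_natCast] at e
    linarith
  · intro hB
    have hz := Pool.Agent.R529.SM.dens_zero (μ := μ) (ℱ := ℱ) (A := A) Q hcop
    have hclose : ∀ᵐ ω ∂μ, ∀ B : ℕ, ∀ᶠ n : ℕ in atTop,
        |Pool.Agent.R528.RM.dens μ ℱ A n ω - Pool.Agent.R528.RM.rhoW Q (n + 1)| * Real.log (n : ℝ) ^ B ≤ 1 := by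
      filter_upwards [hB, hz] with ω h1 h2 B
      exact Pool.Agent.R529.SM.profile_close hQ h2 B (h1 B)
    have hRE : ∀ (ω : Ω) (s x : ℝ), 1 < x → R {k | ω ∈ A k} s x - 1 =
        Real.log x / Real.log x ^ s * (Pool.Agent.R528.RM.Ncl A (Finset.Ioc ⌊x⌋₊ ⌊x + Real.log x ^ s⌋₊) ω - Real.log x ^ s / Real.log x) := by
      intro ω s x hx
      have hl := Real.log_pos hx
      have hls : 0 < Real.log x ^ s := by positivity
      unfold R
      rw [count_eq (by linarith) hls.le]
      field_simp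
    constructor
    · filter_upwards [hU, hclose] with ω h1 h2 s hs ε hε
      have hs0 : 0 < s := by linarith
      obtain ⟨δ, hδ, hev⟩ := h1 s hs (ε / 2) (by positivity)
      have hbig : Tendsto (fun x : ℝ => Real.log x ^ s) atTop atTop :=
        (tendsto_rpow_atTop hs0).comp Real.tendsto_log_atTop
      have hsm := (isLittleO_log_rpow_rpow_atTop s hδ).bound (show (0 : ℝ) < 1 by norm_num)
      filter_upwards [hev, Pool.Agent.R529.SM.Ncl_center (μ := μ) (ℱ := ℱ) hQ h2 hs0, eventually_gt_atTop (1 : ℝ), hsm,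
        hbig.eventually_ge_atTop ((4 / ε) ^ 2)] with x g1 g2 g3 g4 g5
      have hl := Real.log_pos g3
      have hH : 0 < Real.log x ^ s := by positivity
      rw [one_mul, Real.norm_eq_abs, Real.norm_eq_abs, abs_of_nonneg hH.le, abs_of_nonneg (by positivity)] at g4
      have k1 := g1 _ le_rfl g4
      rw [hRE ω s x g3, abs_mul, abs_of_pos (by positivity)]
      set E := Pool.Agent.R528.RM.Ncl A (Finset.Ioc ⌊x⌋₊ ⌊x + Real.log x ^ s⌋₊) ω - Real.log x ^ s / Real.log x with hE
      have k2 : |E| ≤ (1 + ε) * √(2 * Real.log x ^ s) := by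
        have a1 := abs_add_le (E - Pool.Agent.R528.RM.CS μ ℱ A (Finset.Ioc ⌊x⌋₊ ⌊x + Real.log x ^ s⌋₊) ω)
          (Pool.Agent.R528.RM.CS μ ℱ A (Finset.Ioc ⌊x⌋₊ ⌊x + Real.log x ^ s⌋₊) ω)
        rw [sub_add_cancel] at a1
        have a2 : 2 ≤ ε / 2 * √(2 * Real.log x ^ s) := by
          have a3 : 4 / ε ≤ √(2 * Real.log x ^ s) := by
            apply Real.le_sqrt_of_sq_le
            linarith
          rw [div_le_iff₀ hε] at a3
          linarith
        linarith
      have k3 := mul_le_mul_of_nonneg_left k2 (show 0 ≤ Real.log x / Real.log x ^ s by positivity)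
      refine k3.trans (le_of_eq ?_)
      rw [← Pool.Agent.R529.SM.norm_const hl]
      ring
    · intro s hs
      have hs0 : 0 < s := by linarith
      filter_upwards [hL s hs, hclose] with ω h1 h2 ε hε
      have hbig : Tendsto (fun x : ℝ => Real.log x ^ s) atTop atTop :=
        (tendsto_rpow_atTop hs0).comp Real.tendsto_log_atTop
      have hev := (tendsto_natCast_atTop_atTop (R := ℝ)).eventually
        (((Pool.Agent.R529.SM.Ncl_center (μ := μ) (ℱ := ℱ) hQ h2 hs0).and (eventually_gt_atTop (1 : ℝ))).and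
          (hbig.eventually_ge_atTop ((4 / ε) ^ 2)))
      have h3 := (h1 (ε / 2) (by positivity)).and_eventually hev
      refine (tendsto_natCast_atTop_atTop (R := ℝ)).frequently (h3.mono ?_)
      rintro n ⟨g1, ⟨g2, g3⟩, g5⟩
      have hl := Real.log_pos g3
      have hH : 0 < Real.log (n : ℝ) ^ s := by positivity
      rw [hRE ω s n g3]
      rw [Nat.floor_natCast] at g2 ⊢
      set E := Pool.Agent.R528.RM.Ncl A (Finset.Ioc n ⌊(n : ℝ) + Real.log (n : ℝ) ^ s⌋₊) ω - Real.log (n : ℝ) ^ s / Real.log (n : ℝ) with hE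
      have k2 : (1 - ε) * √(2 * Real.log (n : ℝ) ^ s) ≤ E := by
        have a1 := (abs_le.1 g2).1
        have a2 : 2 ≤ ε / 2 * √(2 * Real.log (n : ℝ) ^ s) := by
          have a3 : 4 / ε ≤ √(2 * Real.log (n : ℝ) ^ s) := by
            apply Real.le_sqrt_of_sq_le
            linarith
          rw [div_le_iff₀ hε] at a3
          linarith
        linarith
      have k3 := mul_le_mul_of_nonneg_left k2 (show 0 ≤ Real.log (n : ℝ) / Real.log (n : ℝ) ^ s by positivity)
      refine le_trans (le_of_eq ?_) k3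
      rw [← Pool.Agent.R529.SM.norm_const hl]
      ring
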