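import Mathlib
import Pool.Agent.R301.RM.PowLog

set_option autoImplicit false

/-!
# Random models of the primes: the limits `L_s` and `U_s` for all exponents

Q1 asks whether the lower limit `L_s` and the upper limit `U_s` of
`R_{(log x)^s}(x) = (log x / (log x)^s) (π(x + (log x)^s) - π(x))` tend to `1` as `s → ∞`.  The
theorem below computes all these limits in EVERY random model of the primes in which the integers
are decided one after the other and the conditional probability of choosing `n + 1` given the past is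
asymptotic to `1 / log n` (no independence is assumed; Cramér's model and the Hawkins random sieve
are examples): almost surely, simultaneously for all real `s > 0`,

* `L_s = U_s = 1` if `s > 2`;
* `L_2 = 0` and `U_2 = e`;
* `L_s = 0` and `U_s = ∞` if `s < 2`.

So in every such model the analogue of Q1 has a positive answer, with the exact range of `s`; the
contrast with the primes, for which `L_s < 1 < U_s` for all `s > 1` (Maier), is not due to the
dependence between the choices of nearby integers as long as the conditional densities are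
asymptotic to `1 / log n`.
-/

open MeasureTheory Filter
open scoped Topology ENNReal

namespace Pool.Agent.Results.MP_b09185_nt.RandomModelLimits

/-- the number of members of `S` in the interval `(x, x + y]` -/
noncomputable def count (S : Set ℕ) (x y : ℝ) : ℕ := Set.ncard {a : ℕ | a ∈ S ∧ x < a ∧ (a : ℝ) ≤ x + y}

/-- `R_{(log x)^s}(x)`, with the members of `S` in place of the primes -/
noncomputable def R (S : Set ℕ) (s x : ℝ) : ℝ :=
  Real.log x / Real.log x ^ s * count S x (Real.log x ^ s)

/-- the upper limit `U_s`, in `[0, ∞]` -/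
noncomputable def U (S : Set ℕ) (s : ℝ) : ℝ≥0∞ := limsup (fun x : ℝ => ENNReal.ofReal (R S s x)) atTop

/-- the lower limit `L_s`, in `[0, ∞]` -/
noncomputable def L (S : Set ℕ) (s : ℝ) : ℝ≥0∞ := liminf (fun x : ℝ => ENNReal.ofReal (R S s x)) atTop

end Pool.Agent.Results.MP_b09185_nt.RandomModelLimits

open Pool.Agent.Results.MP_b09185_nt.RandomModelLimits

/-- Let `A n` be the event that `n` belongs to a random set adapted to a filtration `ℱ`, such that
almost surely the conditional probability of `A (n + 1)` given `ℱ n`, times `log n`, tends to `1`.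
Then almost surely, for the random set in place of the primes, `L_s = U_s = 1` for all real `s > 2`,
`L_2 = 0`, `U_2 = e`, and `L_s = 0`, `U_s = ∞` for all real `0 < s < 2`. -/
theorem Pool.Agent.Results.MP_b09185_nt.RandomModelLimits.result
    {Ω : Type} [mΩ : MeasurableSpace Ω] (μ : Measure Ω) [IsProbabilityMeasure μ]
    (ℱ : Filtration ℕ mΩ) (A : ℕ → Set Ω) (hA : ∀ n, MeasurableSet[ℱ n] (A n))
    (hd : ∀ᵐ ω ∂μ, Tendsto (fun n : ℕ =>
      (μ[(A (n + 1)).indicator (fun _ => (1 : ℝ)) | ℱ n]) ω * Real.log n) atTop (𝓝 1)) :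
    ∀ᵐ ω ∂μ,
      (∀ s : ℝ, 2 < s → L {k | ω ∈ A k} s = 1 ∧ U {k | ω ∈ A k} s = 1) ∧
      (L {k | ω ∈ A k} 2 = 0 ∧ U {k | ω ∈ A k} 2 = ENNReal.ofReal (Real.exp 1)) ∧
      (∀ s : ℝ, 0 < s → s < 2 → L {k | ω ∈ A k} s = 0 ∧ U {k | ω ∈ A k} s = ⊤) := by
  filter_upwards [Pool.Agent.R301.RM.pow_law hA hd] with ω hω
  obtain ⟨h1, ⟨h2, h3, h4⟩, h5⟩ := hω
  refine ⟨fun s hs => ?_, ⟨?_, ?_⟩, fun s hs0 hs => ⟨?_, ?_⟩⟩
  · have h6 : Tendsto (fun x : ℝ => ENNReal.ofReal (R {k | ω ∈ A k} s x)) atTop (𝓝 (ENNReal.ofReal 1)) :=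
      ENNReal.tendsto_ofReal (h1 s hs)
    rw [ENNReal.ofReal_one] at h6
    exact ⟨h6.liminf_eq, h6.limsup_eq⟩
  · exact Pool.Agent.R301.RM.liminf_ofReal_zero h4
  · exact Pool.Agent.R301.RM.limsup_ofReal_eq h2 h3
  · exact Pool.Agent.R301.RM.liminf_ofReal_zero (h5 s hs0 hs).1
  · exact Pool.Agent.R301.RM.limsup_ofReal_top (h5 s hs0 hs).2
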