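import Pool.Agent.R516.GenI
import Pool.Agent.R516.Core

/-!
# Stability of `R_{(log x)^s}(x)` in `s`, for all but boundedly many scales

For every `ε > 0` there is `K` such that for all large `N` and for all integers `a ≥ 24` with
`(log N)^(a+6) ≤ N`, with at most `K` exceptions, the function `s ↦ R_{(log x)^s}(x)` is within `ε` of
a constant `θ(x) ∈ [0, 18/5]` on `[a, a+1]`, for all real `x ∈ [0, N]` outside a set of measure at most
`ε N`; the function `θ` has mean value within `ε` of `1` on every interval `[0, x]`, in the sense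
below.
-/

set_option autoImplicit false

open Filter Topology MeasureTheory

namespace Pool.Agent.Results.MP_b09185_nt.ScaleStability

/-- `R_h(x) = (log x / h) (π(x + h) - π(x))` for `h = (log x) ^ s` -/
noncomputable def ratio (s x : ℝ) : ℝ :=
  Real.log x / Real.log x ^ s *
    ((Nat.primeCounting ⌊x + Real.log x ^ s⌋₊ : ℝ) - Nat.primeCounting ⌊x⌋₊)

theorem result : ∀ ε : ℝ, 0 < ε → ∃ K : ℕ, ∀ᶠ N : ℕ in atTop, ∃ B : Finset ℕ, B.card ≤ K ∧
    ∀ a : ℕ, 24 ≤ a → Real.log N ^ (a + 6) ≤ N → a ∉ B →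
      ∃ θ : ℕ → ℝ, (∀ n, 0 ≤ θ n ∧ θ n ≤ 18 / 5) ∧
        (∀ x ≤ N, |∑ n ∈ Finset.range x, θ n - x| ≤ ε * N) ∧
        volume {x : ℝ | 0 ≤ x ∧ x ≤ N ∧ ¬ ∀ s : ℝ, (a : ℝ) ≤ s → s ≤ a + 1 →
          |ratio s x - θ ⌊x⌋₊| ≤ ε} ≤ ENNReal.ofReal (ε * N) := by
  intro ε hε
  exact Pool.Agent.R516.expo (Pool.Agent.R516.winU Pool.Agent.R516.core) ε hε

end Pool.Agent.Results.MP_b09185_nt.ScaleStability
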