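import Mathlib
import Pool.Agent.R301.GM.Limits

set_option autoImplicit false

/-!
# Sieved random models of the primes: Maier's phenomenon together with Q1

For the primes, Maier proved `L_s < 1 < U_s` for every `s > 1`, and Q1 asks whether `L_s` and `U_s` tend
to `1` as `s → ∞`.  Cramér's random model misses the first fact (it has `L_s = U_s = 1` for all
`s > 2`).  The theorem below proves BOTH facts in Granville's refinement of the model: one first
removes the integers `n` with a prime factor `≤ z(n)`, where `z(n)` is about `log n`, and then chooses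
each remaining integer `n` with probability about `∏_{p ≤ z(n)} (1 - 1/p)⁻¹ / log n`.  No independence
is assumed: the integers are decided one after the other and only the conditional probability given
the past is prescribed, asymptotically and almost surely.  The level `z` is any nondecreasing
function with `log z(n) ~ θ log log n` for some `θ > 0`; Granville's case is `θ = 1`.

The proof combines an exponential inequality for adapted sets, the fundamental lemma of the sieve,
the asymptotic formula of Buchstab for the integers `≤ v^u` without prime factors `≤ v` and the sign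
changes of `ω(u) - e^{-γ}` (all from earlier files), near multiples of `∏_{p ≤ (log x)^t} p`, `t < θ`.
-/

open MeasureTheory Filter
open scoped Topology ENNReal

namespace Pool.Agent.Results.MP_b09185_nt.SievedModelLimits

/-- the conditional probability that `n + 1` is chosen, given the information up to `n` -/
noncomputable def density {Ω : Type} {mΩ : MeasurableSpace Ω} (μ : Measure Ω) (ℱ : Filtration ℕ mΩ)
    (A : ℕ → Set Ω) (n : ℕ) : Ω → ℝ := μ[(A (n + 1)).indicator (fun _ => (1 : ℝ)) | ℱ n]

/-- `n` survives the sieve of level `z n`: no prime factor of `n` is `≤ z n` -/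
def Unsieved (z : ℕ → ℕ) (n : ℕ) : Prop := ∀ p, p.Prime → p ∣ n → z n < p

/-- the sieve density `∏_{p ≤ y} (1 - 1/p)` -/
noncomputable def mertens (y : ℕ) : ℝ := ∏ p ∈ (Finset.Icc 1 y).filter Nat.Prime, (1 - (p : ℝ)⁻¹)

/-- the number of members of `S` in the interval `(x, x + y]` -/
noncomputable def count (S : Set ℕ) (x y : ℝ) : ℕ := Set.ncard {a : ℕ | a ∈ S ∧ x < a ∧ (a : ℝ) ≤ x + y}

/-- `R_{(log x)^s}(x)`, with the members of `S` in place of the primes -/
noncomputable def R (S : Set ℕ) (s x : ℝ) : ℝ :=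
  Real.log x / Real.log x ^ s * count S x (Real.log x ^ s)

/-- the upper limit `U_s`, in `[0, ∞]` -/
noncomputable def U (S : Set ℕ) (s : ℝ) : ℝ≥0∞ := limsup (fun x : ℝ => ENNReal.ofReal (R S s x)) atTop

/-- the lower limit `L_s`, in `[0, ∞]` -/
noncomputable def L (S : Set ℕ) (s : ℝ) : ℝ≥0∞ := liminf (fun x : ℝ => ENNReal.ofReal (R S s x)) atTop

lemma mertens_eq (y : ℕ) : (mertens y)⁻¹ = Pool.Agent.R528.RM.MM y := by
  unfold mertens Pool.Agent.R528.RM.MM
  rw [Finset.prod_inv_distrib]

end Pool.Agent.Results.MP_b09185_nt.SievedModelLimits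

open Pool.Agent.Results.MP_b09185_nt.SievedModelLimits

/-- Let `θ > 0` and let `z` be nondecreasing with `log z(n) ~ θ log log n`.  Let `A n` be the event that
`n` belongs to a random set adapted to a filtration `ℱ`, such that `A n` is empty if `n` has a prime
factor `≤ z n`, and such that almost surely the conditional probability of `A (n + 1)` given `ℱ n` is
`(1 + o(1)) ∏_{p ≤ z (n + 1)} (1 - 1/p)⁻¹ / log n` along the other `n + 1`.  Then almost surely, for the
random set in place of the primes, `L_s → 1` and `U_s → 1` as `s → ∞`; and if `θ ≤ 1`, then almost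
surely `L_s < 1 < U_s` for all real `s > 0`. -/
theorem Pool.Agent.Results.MP_b09185_nt.SievedModelLimits.result
    {Ω : Type} [mΩ : MeasurableSpace Ω] (μ : Measure Ω) [IsProbabilityMeasure μ]
    (ℱ : Filtration ℕ mΩ) (A : ℕ → Set Ω) (hA : ∀ n, MeasurableSet[ℱ n] (A n))
    (z : ℕ → ℕ) (hmono : Monotone z) (θ : ℝ) (hθ : 0 < θ)
    (hz : Tendsto (fun n : ℕ => Real.log (z n) / Real.log (Real.log n)) atTop (𝓝 θ))
    (hcop : ∀ n, ¬ Unsieved z n → A n = ∅)
    (hd : ∀ᵐ ω ∂μ, Tendsto (fun n : ℕ => density μ ℱ A n ω * Real.log n * mertens (z (n + 1)))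
      (atTop ⊓ 𝓟 {n : ℕ | Unsieved z (n + 1)}) (𝓝 1)) :
    (∀ᵐ ω ∂μ, Tendsto (L {k | ω ∈ A k}) atTop (𝓝 1) ∧ Tendsto (U {k | ω ∈ A k}) atTop (𝓝 1)) ∧
    (θ ≤ 1 → ∀ᵐ ω ∂μ, ∀ s : ℝ, 0 < s → L {k | ω ∈ A k} s < 1 ∧ 1 < U {k | ω ∈ A k} s) := by
  have hd' : ∀ᵐ ω ∂μ, Tendsto (fun n : ℕ => Pool.Agent.R528.RM.dens μ ℱ A n ω * Real.log n /
      Pool.Agent.R528.RM.MM (z (n + 1)))
      (atTop ⊓ 𝓟 {n | Pool.Agent.R301.GM.Free (z (n + 1)) (n + 1)}) (𝓝 1) := by
    filter_upwards [hd] with ω hω
    refine hω.congr fun n => ?_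
    rw [← mertens_eq, div_inv_eq_mul]
    rfl
  refine ⟨?_, fun hθ1 => ?_⟩
  · filter_upwards [Pool.Agent.R301.GM.limits_one (μ := μ) hA hmono hθ hz hcop hd'] with ω hω
    exact Pool.Agent.R301.GM.tendsto_liminf_limsup hω
  · filter_upwards [Pool.Agent.R301.GM.limits_low (μ := μ) hA hmono hθ hθ1 hz hcop hd',
      Pool.Agent.R301.GM.limits_high (μ := μ) hA hmono hθ hθ1 hz hcop hd'] with ω h1 h2 s hs
    exact ⟨Pool.Agent.R301.GM.liminf_lt_one (h1 s hs), Pool.Agent.R301.GM.one_lt_limsup (h2 s hs)⟩
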